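import Pool.Agent.H699.T.Forest

/-!
# The parent function (task PAR of helper699)
-/

set_option autoImplicit false

namespace Pool.Agent.H695.T.PAR

open Finset Classical Pool.Agent.H699.T

variable {N : ℕ}

theorem resK_symm (κ : Fin N → Fin N → ℕ) (hs : ∀ x y, κ x y = κ y x) (C : Finset (Fin N))
    (a b : Fin N) : resK κ C a b = resK κ C b a := by
  unfold resK
  by_cases h : a ∈ C ∧ b ∈ C
  · rw [if_pos h, if_pos ⟨h.2, h.1⟩, hs]
  · rw [if_neg h, if_neg (fun h' => h ⟨h'.2, h'.1⟩)]

theorem resK_eq (κ : Fin N → Fin N → ℕ) (C : Finset (Fin N)) {a b : Fin N}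
    (ha : a ∈ C) (hb : b ∈ C) : resK κ C a b = κ a b := by
  unfold resK
  rw [if_pos ⟨ha, hb⟩]

theorem mono' {α : Type} {r p : α → α → Prop} (h : ∀ a b, r a b → p a b) {a b : α}
    (hab : Relation.ReflTransGen r a b) : Relation.ReflTransGen p a b := by
  induction hab with
  | refl => exact Relation.ReflTransGen.refl
  | tail _ hbc ih => exact Relation.ReflTransGen.tail ih (h _ _ hbc)

theorem connIn_res (κ : Fin N → Fin N → ℕ) (C : Finset (Fin N)) (t : ℕ) {a b : Fin N}
    (h : ConnIn κ C t a b) : ConnIn (resK κ C) C t a b := by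
  unfold ConnIn at h ⊢
  refine mono' (fun x y hxy => ⟨hxy.1, hxy.2.1, ?_⟩) h
  rw [resK_eq κ C hxy.1 hxy.2.1]
  exact hxy.2.2

theorem connIn_symm (κ : Fin N → Fin N → ℕ) (hs : ∀ x y, κ x y = κ y x) (C : Finset (Fin N))
    (t : ℕ) {a b : Fin N} (h : ConnIn κ C t a b) : ConnIn κ C t b a := by
  unfold ConnIn at h ⊢
  induction h with
  | refl => exact Relation.ReflTransGen.refl
  | tail _ hbc ih =>
    refine Relation.ReflTransGen.head ⟨hbc.2.1, hbc.1, ?_⟩ ih
    rw [hs]
    exact hbc.2.2

theorem inn_good (h1 : S_INNER) (κ : Fin N → Fin N → ℕ) (hs : ∀ x y, κ x y = κ y x)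
    (C : Finset (Fin N)) (z : Fin N) (hz : z ∈ C) :
    ∃ rk, GoodIn (resK κ C) C z (inn κ C z) rk := by
  have h := h1 N (resK κ C) (resK_symm κ hs C) C z hz
  unfold inn
  rw [dif_pos h]
  exact Classical.choose_spec h

/-- The rank function inside a set. -/
noncomputable def rkQ (κ : Fin N → Fin N → ℕ) (C : Finset (Fin N)) (z : Fin N) : Fin N → ℕ :=
  if h : ∃ rk, GoodIn (resK κ C) C z (inn κ C z) rk then Classical.choose h else fun _ => 0

theorem rkQ_good (h1 : S_INNER) (κ : Fin N → Fin N → ℕ) (hs : ∀ x y, κ x y = κ y x)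
    (C : Finset (Fin N)) (z : Fin N) (hz : z ∈ C) :
    GoodIn (resK κ C) C z (inn κ C z) (rkQ κ C z) := by
  have h := inn_good h1 κ hs C z hz
  unfold rkQ
  rw [dif_pos h]
  exact Classical.choose_spec h

theorem t_PAR : S_INNER → S_CLUS → S_PAR := by
  intro h1 h2 N κ hκ R hR
  have hs := hκ.symm
  have cl := h2 N κ hκ R hR
  -- the exit vertex
  have parx : ∀ v, v ∉ R → ∀ u ∈ Qs κ R v, u = (ext κ R v).1 → par κ R u = (ext κ R v).2 := by
    intro v hv u hu hux
    obtain ⟨c1, c2, c3, -⟩ := cl v hv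
    have huR := c1 u hu
    have he := (c3 u hu).2.2
    unfold par
    rw [if_neg huR, he, if_pos hux]
  have parq : ∀ v, v ∉ R → ∀ u ∈ Qs κ R v, u ≠ (ext κ R v).1 →
      par κ R u = inn κ (Qs κ R v) (ext κ R v).1 u := by
    intro v hv u hu hux
    obtain ⟨c1, c2, c3, -⟩ := cl v hv
    have huR := c1 u hu
    have he := (c3 u hu).2.2
    have hq := (c3 u hu).2.1
    unfold par
    rw [if_neg huR, he, if_neg hux, hq]
  have good : ∀ v, v ∉ R → GoodIn (resK κ (Qs κ R v)) (Qs κ R v) (ext κ R v).1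
      (inn κ (Qs κ R v) (ext κ R v).1) (rkQ κ (Qs κ R v) (ext κ R v).1) := by
    intro v hv
    obtain ⟨c1, c2, c3, c4, c5, c6, c7, c8⟩ := cl v hv
    exact rkQ_good h1 κ hs _ _ c6.1
  have parQ : ∀ v, v ∉ R → ∀ u ∈ Qs κ R v, u ≠ (ext κ R v).1 → par κ R u ∈ Qs κ R v ∧
      κ u (par κ R u) < th κ R v := by
    intro v hv u hu hux
    obtain ⟨c1, c2, c3, c4, c5, c6, c7, c8⟩ := cl v hv
    obtain ⟨g1, g2, g3⟩ := good v hv
    have hq := (g2 u hu hux).1
    rw [parq v hv u hu hux]
    refine ⟨hq, ?_⟩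
    by_contra hlt
    rw [not_lt] at hlt
    refine g3 (th κ R v) u hu (ext κ R v).1 c6.1 hux (Or.inr ?_) (Or.inl rfl) ?_
    · rw [resK_eq κ _ hu hq]
      exact hlt
    · refine connIn_res κ _ _ ?_
      have e1 := connIn_symm κ hs _ _ (c5 u hu)
      have e2 := c5 _ c6.1
      unfold ConnIn at e1 e2 ⊢
      exact e1.trans e2
  have parle : ∀ v, v ∉ R → κ v (par κ R v) ≤ th κ R v := by
    intro v hv
    obtain ⟨c1, c2, c3, c4, c5, c6, c7, c8⟩ := cl v hv
    by_cases hx : v = (ext κ R v).1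
    · rw [parx v hv v c2 hx]
      have := c6.2.2
      rw [← hx] at this
      exact this.le
    · exact (parQ v hv v c2 hx).2.le
  refine ⟨?_, ?_, ?_, ?_⟩
  · -- ranks
    refine ⟨fun u => if u ∈ R then 0 else
      th κ R u * (N + 2) + rkQ κ (Qs κ R u) (ext κ R u).1 u + 1, ?_⟩
    intro v hv
    obtain ⟨c1, c2, c3, c4, c5, c6, c7, c8⟩ := cl v hv
    obtain ⟨g1, g2, g3⟩ := good v hv
    simp only [if_neg hv]
    by_cases hx : v = (ext κ R v).1
    · rw [parx v hv v c2 hx]
      by_cases hy : (ext κ R v).2 ∈ R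
      · rw [if_pos hy]; omega
      · rw [if_neg hy]
        have hth : th κ R (ext κ R v).2 < th κ R v := by
          rcases c8 with h | h
          · exact absurd h hy
          · exact h
        have hb := (good _ hy).1 (ext κ R v).2
        have hm : (th κ R (ext κ R v).2 + 1) * (N + 2) ≤ th κ R v * (N + 2) :=
          Nat.mul_le_mul_right _ hth
        have hm2 : (th κ R (ext κ R v).2 + 1) * (N + 2) =
          th κ R (ext κ R v).2 * (N + 2) + (N + 2) := by ring
        omega
    · have hp := parQ v hv v c2 hx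
      have hpR := c1 _ hp.1
      obtain ⟨d1, d2, d3⟩ := c3 _ hp.1
      rw [if_neg hpR, d1, d2, d3, parq v hv v c2 hx]
      have := (g2 v c2 hx).2
      omega
  · -- long edges
    intro t v hv ht
    have htv : t ≤ th κ R v := ht.trans (parle v hv)
    obtain ⟨c1, c2, c3, c4, c5, c6, c7, c8⟩ := cl v hv
    have hmem : ∀ w, Conn κ t v w → w ∈ Qs κ R v := by
      intro w hw
      unfold Qs
      rw [mem_filter]
      refine ⟨mem_univ _, ?_⟩
      unfold Conn at hw ⊢
      exact mono' (fun a b hab => lt_of_lt_of_le hab htv) hw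
    refine ⟨?_, ?_⟩
    · intro r hr hc
      exact c1 r (hmem r hc) hr
    · intro v' hv' hne ht' hc
      have hin : ∀ w, Conn κ t v w → ConnIn κ (Qs κ R v) t v w := by
        intro w hw
        unfold Conn at hw
        unfold ConnIn
        induction hw with
        | refl => exact Relation.ReflTransGen.refl
        | @tail b c hb hbc ih =>
          have hbQ : b ∈ Qs κ R v := hmem b hb
          have hcQ : c ∈ Qs κ R v := hmem c (Relation.ReflTransGen.tail hb hbc)
          exact Relation.ReflTransGen.tail ih ⟨hbQ, hcQ, hbc⟩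
      have hv'Q := hmem v' hc
      obtain ⟨g1, g2, g3⟩ := good v hv
      refine g3 t v c2 v' hv'Q (Ne.symm hne) ?_ ?_ (connIn_res κ _ _ (hin v' hc))
      · by_cases hx : v = (ext κ R v).1
        · exact Or.inl hx
        · right
          rw [resK_eq κ _ c2 (g2 v c2 hx).1, ← parq v hv v c2 hx]
          exact ht
      · by_cases hx : v' = (ext κ R v).1
        · exact Or.inl hx
        · right
          rw [resK_eq κ _ hv'Q (g2 v' hv'Q hx).1, ← parq v hv v' hv'Q hx]
          exact ht'
  · -- the parent is cheaper than a root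
    intro v hv hp r hr
    obtain ⟨c1, c2, c3, c4, c5, c6, c7, c8⟩ := cl v hv
    have hrQ : r ∉ Qs κ R v := fun h => c1 r h hr
    have hle := c4 v c2 r hrQ
    by_cases hx : v = (ext κ R v).1
    · have hpe := parx v hv v c2 hx
      have hk : κ v (par κ R v) = th κ R v := by
        rw [hpe]
        have := c6.2.2
        rw [← hx] at this
        exact this
      rcases lt_or_eq_of_le hle with h | h
      · rw [hk]; exact h
      · exfalso
        have hyQ : par κ R v ∉ Qs κ R v := by rw [hpe]; exact c6.2.1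
        have h1' : v ≠ par κ R v := fun h' => hyQ (h' ▸ c2)
        have h2' : v ≠ r := fun h' => hrQ (h' ▸ c2)
        rcases hκ.inj v (par κ R v) v r h1' h2' (hk.trans h) with h3 | h3
        · exact hp (h3.2 ▸ hr)
        · exact h2' h3.1
    · exact lt_of_lt_of_le (parQ v hv v c2 hx).2 hle
  · intro v hv
    obtain ⟨c1, c2, -⟩ := cl v hv
    by_cases hx : v = (ext κ R v).1
    · exact Or.inr ⟨hx, parx v hv v c2 hx⟩
    · exact Or.inl (parQ v hv v c2 hx).1

end Pool.Agent.H695.T.PAR
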